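import Pool.Agent.Q127.Sep.Main

/-!
# Linear uniform hypergraphs with bounded separation choice number (MP_873812_co, Q1)

The definitions are in `Pool.Agent.Q127.Sep.Defs` and the statement `Q127.Sep.Statement` in
`Pool.Agent.Q127.Sep.Main`.

Idea: let `H` be a random linear `r`-uniform hypergraph on `n` vertices, `r ≥ 30`, such that every
set of `n ^ (3 / 4)` vertices contains two vertices of a common edge, and such that every set of at
most `√2 n ^ (7 / 8)` vertices contains at most half as many edges as vertices. If the lists of size
three are separated, then two different colours are available together only on a small set of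
vertices, so only few colours are available on many vertices. If every vertex forgets its most
popular colour, then every colour is left on at most `√2 n ^ (7 / 8)` vertices, and Hall's theorem
gives every edge that is monochromatic for some choice a private vertex, which avoids the
dangerous colour.
-/

set_option autoImplicit false

open Filter Q127.Sep

namespace Pool.Agent.Results.MP_873812_co.SeparationBounded

/-- For every `r ≥ 30` there are linear `r`-uniform hypergraphs of arbitrarily large average degree
with separation choice number at most `3`, hence the answer to Q1 is negative. -/
theorem result :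
    (∀ r : ℕ, 30 ≤ r → ∀ d : ℝ, ∃ (n : ℕ) (H : Finset (Finset (Fin n))), Uniform r H ∧ Linear H ∧
      d ≤ averageDegree r H ∧ chSep H ≤ 3) ∧
    ¬ (∀ r : ℕ, 3 ≤ r → ∃ f g : ℝ → ℝ, Tendsto f atTop atTop ∧ Tendsto g atTop atTop ∧
      ∀ (n : ℕ) (H : Finset (Finset (Fin n))), Uniform r H → Linear H →
        f (averageDegree r H) ≤ (chSep H : ℝ) ∧ g (averageDegree r H) ≤ (chAd H : ℝ)) :=
  ⟨fun r hr d => main r hr d, not_statement⟩

end Pool.Agent.Results.MP_873812_co.SeparationBounded
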